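import Pool.Agent.H63.GO.Defs

/-!
# Abstract assembly: definitions

The integral of a product of vertex factors `g M i (x i)` and edge kernels `K M q x` over `ι → ℝ`.
The edge kernels are themselves integrals `∫ f M q x s ds` near the critical point, up to
exponentially small relative errors.
-/

namespace Pool.Agent.S3.Asm

open Complex Filter Topology MeasureTheory Pool.Agent.H63.GO
open scoped BigOperators

/-- The closed box with centre `a` and radii `R`. -/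
def bx {ι : Type} (a R : ι → ℝ) : Set (ι → ℝ) := {x | ∀ j, |x j - a j| ≤ R j}

/-- The integrand. -/
noncomputable def gK {ι ε : Type} [Fintype ι] [Fintype ε] (g : ℕ → ι → ℝ → ℂ)
    (K : ℕ → ε → (ι → ℝ) → ℂ) (M : ℕ) (x : ι → ℝ) : ℂ :=
  (∏ i, g M i (x i)) * ∏ q, K M q x

/-- The data of the abstract assembly theorem. `inc q` is the set of the endpoints of the edge `q`,
`ga` and `ka` are the growth rates, `w` integrable weights, `xc` the critical point and `m` the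
critical value. -/
structure AsmD {ι ε : Type} [Fintype ι] [Fintype ε] (inc : ε → Finset ι)
    (g : ℕ → ι → ℝ → ℂ) (K : ℕ → ε → (ι → ℝ) → ℂ) (f : ℕ → ε → (ι → ℝ) → ℝ → ℂ)
    (ga : ι → ℝ → ℝ) (ka : ε → (ι → ℝ) → ℝ) (w : ι → ℝ → ℝ) (xc : ι → ℝ) (m : ℝ) : Prop where
  g_meas : ∀ᶠ M in atTop, ∀ i, AEStronglyMeasurable (g M i)
  K_cont : ∀ᶠ M in atTop, ∀ q, Continuous (K M q)
  w_int : ∀ i, Integrable (w i)
  w_nn : ∀ i x, 0 ≤ w i x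
  g_bd : ∃ C : ℝ, 0 < C ∧ ∃ p : ℕ, ∀ᶠ M : ℕ in atTop, ∀ i x,
    ‖g M i x‖ ≤ C * (M : ℝ) ^ p * Real.exp (M * ga i x) * w i x
  K_bd : ∃ C : ℝ, 0 < C ∧ ∃ p : ℕ, ∀ᶠ M : ℕ in atTop, ∀ q x,
    ‖K M q x‖ ≤ C * (M : ℝ) ^ p * Real.exp (M * ka q x)
  K_far : ∀ r : ℝ, 0 < r → ∃ δ : ℝ, 0 < δ ∧ ∃ C : ℝ, 0 < C ∧ ∃ p : ℕ, ∀ᶠ M : ℕ in atTop, ∀ q x,
    (∃ i ∈ inc q, r ≤ |x i - xc i|) → ‖K M q x‖ ≤ C * (M : ℝ) ^ p * Real.exp (M * (ka q x - δ))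
  sum : ∀ x, ∑ i, ga i (x i) + ∑ q, ka q x = m
  cov : ∀ i, ∃ q, i ∈ inc q
  K_loc : ∃ r1 : ℝ, 0 < r1 ∧ ∀ r : ℝ, 0 < r → r ≤ r1 → ∃ ρ : ℝ, 0 < ρ ∧ ∃ δ : ℝ, 0 < δ ∧
    ∃ C : ℝ, 0 < C ∧ ∃ p : ℕ, ∀ᶠ M : ℕ in atTop, ∀ q, ∀ x ∈ bx xc (fun _ => ρ),
      ‖K M q x - ∫ s in (-r)..r, f M q x s‖ ≤ C * (M : ℝ) ^ p * Real.exp (M * (ka q x - δ))

end Pool.Agent.S3.Asm
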