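import Pool.Agent.H63.GO.MTaylor
import Pool.Agent.H63.GO.SCalc
import Pool.Agent.H63.VC4.GaussN
import Pool.Agent.H63.VC4.LaplaceN
import Pool.Agent.S3.Asm.Def

/-! # The local Laplace method at a nondegenerate critical point -/

namespace Pool.Agent.S3.Asm

open Complex Filter Topology MeasureTheory Pool.Agent.H63.GO
open scoped BigOperators

private theorem Lap_bx_convex {ι : Type} (a R : ι → ℝ) : Convex ℝ (bx a R) := by
  intro x hx y hy s t hs ht hst j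
  have h1 := hx j
  have h2 := hy j
  have e : (s • x + t • y) j - a j = s * (x j - a j) + t * (y j - a j) := by
    simp only [Pi.add_apply, Pi.smul_apply, smul_eq_mul]
    linear_combination a j * hst
  rw [e]
  calc |s * (x j - a j) + t * (y j - a j)| ≤ |s * (x j - a j)| + |t * (y j - a j)| := abs_add_le _ _
    _ = s * |x j - a j| + t * |y j - a j| := by
        rw [abs_mul, abs_mul, abs_of_nonneg hs, abs_of_nonneg ht]
    _ ≤ s * R j + t * R j :=
        add_le_add (mul_le_mul_of_nonneg_left h1 hs) (mul_le_mul_of_nonneg_left h2 ht)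
    _ = R j := by rw [← add_mul, hst, one_mul]

private theorem Lap_bx_closed {ι : Type} (a R : ι → ℝ) : IsClosed (bx a R) := by
  have h : bx a R = ⋂ j, {x : ι → ℝ | |x j - a j| ≤ R j} := by
    ext x
    simp [bx]
  rw [h]
  refine isClosed_iInter fun j => ?_
  exact isClosed_le ((continuous_apply j).sub continuous_const).abs continuous_const

private theorem Lap_bx_nhds {ι : Type} [Fintype ι] (a R : ι → ℝ) (hR : ∀ j, 0 < R j) :
    bx a R ∈ 𝓝 a := by
  have h : ∀ j, ∀ᶠ x in 𝓝 a, |x j - a j| ≤ R j := by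
    intro j
    have h1 : Tendsto (fun x : ι → ℝ => |x j - a j|) (𝓝 a) (𝓝 |a j - a j|) :=
      (((continuous_apply j).sub continuous_const).abs).tendsto a
    rw [sub_self, abs_zero] at h1
    filter_upwards [h1.eventually (eventually_lt_nhds (hR j))] with x hx
    exact hx.le
  exact eventually_all.2 h

private theorem Lap_cp_cont {ι : Type} (b : ι → ℝ) : Continuous fun a : ι → ℝ => cp a b := by
  refine continuous_pi fun j => ?_
  exact (continuous_ofReal.comp (continuous_apply j)).add continuous_const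

private theorem Lap_D2_eq {ι : Type} [Fintype ι] {V : (ι → ℂ) → ℂ} {U : Set (ι → ℂ)}
    (hV : AnalyticOnNhd ℂ V U) (z : ι → ℂ) (hz : z ∈ U) (v : ι → ℂ) :
    D2 V z v = fderiv ℂ (fderiv ℂ V) z v v := by
  have h1 : HasFDerivAt (fderiv ℂ V) (fderiv ℂ (fderiv ℂ V) z) z :=
    (hV.fderiv z hz).differentiableAt.hasFDerivAt
  have h2 : HasFDerivAt (fun y => fderiv ℂ V y v)
      ((ContinuousLinearMap.apply ℂ ℂ v).comp (fderiv ℂ (fderiv ℂ V) z)) z :=
    (ContinuousLinearMap.apply ℂ ℂ v).hasFDerivAt.comp z h1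
  unfold D2
  rw [h2.fderiv]
  rfl

private theorem Lap_rc_norm {ι : Type} [Fintype ι] (ξ : ι → ℝ) : ‖rc ξ‖ ^ 2 ≤ ∑ j, ξ j ^ 2 := by
  have h1 : ‖rc ξ‖ ≤ Real.sqrt (∑ j, ξ j ^ 2) := by
    rw [pi_norm_le_iff_of_nonneg (Real.sqrt_nonneg _)]
    intro j
    apply Real.le_sqrt_of_sq_le
    have h2 : ‖rc ξ j‖ ^ 2 = ξ j ^ 2 := by simp [rc]
    rw [h2]
    exact Finset.single_le_sum (f := fun j => ξ j ^ 2) (fun i _ => sq_nonneg _)
      (Finset.mem_univ j)
  have h2 : 0 ≤ ∑ j, ξ j ^ 2 := Finset.sum_nonneg fun j _ => sq_nonneg _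
  calc ‖rc ξ‖ ^ 2 ≤ (Real.sqrt (∑ j, ξ j ^ 2)) ^ 2 := pow_le_pow_left₀ (norm_nonneg _) h1 2
    _ = _ := Real.sq_sqrt h2

/-- At a critical point with negative definite second derivative the real part decreases
quadratically. -/
theorem dec_loc {ι : Type} [Fintype ι] {V : (ι → ℂ) → ℂ} {U : Set (ι → ℂ)} (hU : IsOpen U)
    (hV : AnalyticOnNhd ℂ V U) (ac bc : ι → ℝ) (hz : cp ac bc ∈ U)
    (hg : ∀ ξ : ι → ℝ, fderiv ℂ V (cp ac bc) (rc ξ) = 0)
    (hneg : ∀ ξ : ι → ℝ, ξ ≠ 0 → (D2 V (cp ac bc) (rc ξ)).re < 0) :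
    ∃ r : ℝ, 0 < r ∧ ∃ c : ℝ, 0 < c ∧ ∀ a ∈ bx ac (fun _ => r), cp a bc ∈ U ∧
      (V (cp a bc)).re ≤ (V (cp ac bc)).re - c * ∑ j, (a j - ac j) ^ 2 := by
  classical
  obtain ⟨c, hc, hc1⟩ := neg_unif V U hU hV {ac} {bc} isCompact_singleton isCompact_singleton
    (fun a ha b hb => by
      rw [Set.mem_singleton_iff] at ha hb
      rw [ha, hb]
      exact hz)
    (fun a ha b hb ξ hξ => by
      rw [Set.mem_singleton_iff] at ha hb
      rw [ha, hb]
      exact hneg ξ hξ)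
  have hcont : Tendsto (fun w => ‖fderiv ℂ (fderiv ℂ V) w - fderiv ℂ (fderiv ℂ V) (cp ac bc)‖)
      (𝓝 (cp ac bc)) (𝓝 0) := by
    have h := (hV.fderiv.fderiv _ hz).continuousAt
    exact tendsto_iff_norm_sub_tendsto_zero.1 h
  have hU' : ∀ᶠ a in 𝓝 ac, cp a bc ∈ U :=
    (Lap_cp_cont bc).continuousAt.eventually (hU.mem_nhds hz)
  have hev : ∀ᶠ a in 𝓝 ac, ‖fderiv ℂ (fderiv ℂ V) (cp a bc) -
      fderiv ℂ (fderiv ℂ V) (cp ac bc)‖ < c / 2 := by
    have h1 := hcont.comp ((Lap_cp_cont bc).tendsto ac)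
    exact h1.eventually (eventually_lt_nhds (by positivity))
  obtain ⟨r, hr, hball⟩ := Metric.eventually_nhds_iff_ball.1 (hU'.and hev)
  have hbx : ∀ a ∈ bx ac (fun _ => r / 2), a ∈ Metric.ball ac r := by
    intro a ha
    rw [Metric.mem_ball, dist_pi_lt_iff hr]
    intro j
    rw [Real.dist_eq]
    have h1 : |a j - ac j| ≤ r / 2 := ha j
    linarith
  have hn : ∀ a ∈ bx ac (fun _ => r / 2), ∀ ξ : ι → ℝ,
      (D2 V (cp a bc) (rc ξ)).re ≤ -(c / 2 * ∑ j, ξ j ^ 2) := by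
    intro a ha ξ
    have h2 := (hball a (hbx a ha)).2
    have h3 := hc1 ac rfl bc rfl ξ
    rw [Lap_D2_eq hV _ hz] at h3
    rw [Lap_D2_eq hV _ (hball a (hbx a ha)).1]
    set Da := fderiv ℂ (fderiv ℂ V) (cp a bc) with hDa
    set Dc := fderiv ℂ (fderiv ℂ V) (cp ac bc) with hDc
    have h4 : ‖(Da - Dc) (rc ξ) (rc ξ)‖ ≤ c / 2 * ∑ j, ξ j ^ 2 := by
      have h5 := Lap_rc_norm ξ
      calc ‖(Da - Dc) (rc ξ) (rc ξ)‖ ≤ ‖(Da - Dc) (rc ξ)‖ * ‖rc ξ‖ :=
            ContinuousLinearMap.le_opNorm _ _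
        _ ≤ (‖Da - Dc‖ * ‖rc ξ‖) * ‖rc ξ‖ :=
            mul_le_mul_of_nonneg_right (ContinuousLinearMap.le_opNorm _ _) (norm_nonneg _)
        _ = ‖Da - Dc‖ * ‖rc ξ‖ ^ 2 := by ring
        _ ≤ c / 2 * ∑ j, ξ j ^ 2 :=
            mul_le_mul h2.le h5 (sq_nonneg _) (by positivity)
    have h5 : Da (rc ξ) (rc ξ) = Dc (rc ξ) (rc ξ) + (Da - Dc) (rc ξ) (rc ξ) := by
      simp
    have h6 := (Complex.re_le_norm ((Da - Dc) (rc ξ) (rc ξ))).trans h4
    rw [h5, Complex.add_re]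
    linarith
  refine ⟨r / 2, by positivity, c / 2 / 2, by positivity,
    fun a ha => ⟨(hball a (hbx a ha)).1, ?_⟩⟩
  have hac : ac ∈ bx ac (fun _ => r / 2) := by
    intro j
    rw [sub_self, abs_zero]
    positivity
  have h1 := real_concave V U hU hV (bx ac (fun _ => r / 2)) (Lap_bx_convex _ _) bc
    (fun a ha => (hball a (hbx a ha)).1) (c / 2) (by positivity) hn ac hac a ha
  rw [hg (a - ac), Complex.zero_re, add_zero] at h1
  exact h1

/-- the amplitude -/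
private noncomputable def Lap_A {ι : Type} (V : (ι → ℂ) → ℂ) (Φ : ℕ → (ι → ℂ) → ℂ)
    (S : Set (ι → ℝ)) (b : ι → ℝ) (e : ℝ) (M : ℕ) : (ι → ℝ) → ℂ :=
  S.indicator fun a => Φ M (cp a b) * exp (-(M * V (cp a b))) / (((M : ℝ) ^ e : ℝ) : ℂ)

private theorem Lap_id {ι : Type} (V : (ι → ℂ) → ℂ) (Φ : ℕ → (ι → ℂ) → ℂ)
    (S : Set (ι → ℝ)) (b : ι → ℝ) (e : ℝ) (M : ℕ) (ac a : ι → ℝ) :
    Lap_A V Φ S b e M a * exp (M * (V (cp a b) - V (cp ac b))) =
      ((((M : ℝ) ^ e : ℝ) : ℂ) * exp (M * V (cp ac b)))⁻¹ *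
        S.indicator (fun a => Φ M (cp a b)) a := by
  unfold Lap_A
  by_cases ha : a ∈ S
  · rw [Set.indicator_of_mem ha, Set.indicator_of_mem ha, mul_sub, Complex.exp_sub, mul_inv]
    have h3 : exp (-((M : ℂ) * V (cp a b))) * exp ((M : ℂ) * V (cp a b)) = 1 := by
      rw [← Complex.exp_add, neg_add_cancel, Complex.exp_zero]
    calc _ = (Φ M (cp a b) / (((M : ℝ) ^ e : ℝ) : ℂ) / exp ((M : ℂ) * V (cp ac b))) *
          (exp (-((M : ℂ) * V (cp a b))) * exp ((M : ℂ) * V (cp a b))) := by ring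
      _ = _ := by
          rw [h3]
          ring
  · rw [Set.indicator_of_notMem ha, Set.indicator_of_notMem ha, zero_mul, mul_zero]

/-- The Laplace method in a box. -/
theorem lap_loc {ι : Type} [Fintype ι] [DecidableEq ι] {V : (ι → ℂ) → ℂ} {U : Set (ι → ℂ)}
    (hU : IsOpen U) (hV : AnalyticOnNhd ℂ V U) (ac bc : ι → ℝ) (hz : cp ac bc ∈ U)
    (hg : ∀ ξ : ι → ℝ, fderiv ℂ V (cp ac bc) (rc ξ) = 0) (R : ι → ℝ) (hR : ∀ j, 0 < R j)
    (c : ℝ) (hc : 0 < c)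
    (hdec : ∀ a ∈ bx ac R, cp a bc ∈ U ∧
      (V (cp a bc)).re ≤ (V (cp ac bc)).re - c * ∑ j, (a j - ac j) ^ 2)
    (Φ : ℕ → (ι → ℂ) → ℂ) (e : ℝ)
    (hcont : ∀ᶠ M in atTop, ContinuousOn (fun a => Φ M (cp a bc)) (bx ac R))
    (hbd : ∃ C : ℝ, 0 < C ∧ ∀ᶠ M : ℕ in atTop, ∀ a ∈ bx ac R,
      ‖Φ M (cp a bc)‖ ≤ C * (M : ℝ) ^ e * Real.exp (M * (V (cp a bc)).re))
    (hL : ALim V Φ e (cp ac bc)) :
    ∃ κ : ℂ, κ ≠ 0 ∧ Tendsto (fun M : ℕ => (((M : ℝ) ^ ((Fintype.card ι : ℝ) / 2) : ℝ) : ℂ) *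
      (∫ a in bx ac R, Φ M (cp a bc)) / ((((M : ℝ) ^ e : ℝ) : ℂ) * exp (M * V (cp ac bc))))
      atTop (𝓝 κ) := by
  obtain ⟨C, hC0, hC⟩ := hbd
  obtain ⟨A, hA0, hAl⟩ := hL
  have hn : bx ac R ∈ 𝓝 ac := Lap_bx_nhds ac R hR
  have hms : MeasurableSet (bx ac R) := (Lap_bx_closed ac R).measurableSet
  obtain ⟨q, hq1, hq2, hq3⟩ := taylor_crit V U hU hV ac bc hz hg (bx ac R) hn c hc
    (fun a ha => (hdec a ha).2)
  have hp : ∀ ξ : ι → ℝ, Tendsto (fun M : ℕ => ac + (1 / Real.sqrt M : ℝ) • ξ) atTop (𝓝 ac) := by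
    intro ξ
    have hs : Tendsto (fun M : ℕ => (1 / Real.sqrt M : ℝ)) atTop (𝓝 0) := by
      have h1 : Tendsto (fun M : ℕ => Real.sqrt (M : ℝ)) atTop atTop :=
        Real.tendsto_sqrt_atTop.comp tendsto_natCast_atTop_atTop
      simp only [one_div]
      exact h1.inv_tendsto_atTop
    have h1 : Tendsto (fun M : ℕ => ac + (1 / Real.sqrt M : ℝ) • ξ) atTop
        (𝓝 (ac + (0 : ℝ) • ξ)) := tendsto_const_nhds.add (hs.smul_const ξ)
    rwa [zero_smul, add_zero] at h1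
  have hlap := Pool.Agent.H63.VC4.laplaceN (fun a => V (cp a bc)) ac
    (Lap_A V Φ (bx ac R) bc e) C c hc (fun ξ => ∑ a, ∑ b, q a b * ξ a * ξ b) A ?_ ?_ ?_ ?_ hq3
  · refine ⟨A * ∫ ξ : ι → ℝ, exp (-∑ a, ∑ b, q a b * ξ a * ξ b),
      mul_ne_zero hA0 (Pool.Agent.H63.VC4.gaussN_ne q hq1 c hc hq2), ?_⟩
    refine hlap.congr fun M => ?_
    have h1 : (fun a => Lap_A V Φ (bx ac R) bc e M a *
        exp (M * (V (cp a bc) - V (cp ac bc)))) =
        fun a => ((((M : ℝ) ^ e : ℝ) : ℂ) * exp (M * V (cp ac bc)))⁻¹ *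
          (bx ac R).indicator (fun a => Φ M (cp a bc)) a := by
      funext a
      exact Lap_id V Φ (bx ac R) bc e M ac a
    rw [h1, integral_const_mul, integral_indicator hms]
    ring
  · -- measurability
    filter_upwards [hcont] with M hM
    have h1 : (fun a => Lap_A V Φ (bx ac R) bc e M a *
        exp (M * (V (cp a bc) - V (cp ac bc)))) =
        fun a => ((((M : ℝ) ^ e : ℝ) : ℂ) * exp (M * V (cp ac bc)))⁻¹ *
          (bx ac R).indicator (fun a => Φ M (cp a bc)) a := by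
      funext a
      exact Lap_id V Φ (bx ac R) bc e M ac a
    rw [h1]
    exact ((aestronglyMeasurable_indicator_iff hms).2 (hM.aestronglyMeasurable hms)).const_mul _
  · -- bound
    filter_upwards [eventually_gt_atTop 0, hC] with M hM1 hb z
    unfold Lap_A
    by_cases hzS : z ∈ bx ac R
    · have h1 := hb z hzS
      have hMe : (0 : ℝ) < (M : ℝ) ^ e := Real.rpow_pos_of_pos (by exact_mod_cast hM1) e
      rw [Set.indicator_of_mem hzS, norm_div, norm_mul, Complex.norm_real, Real.norm_eq_abs,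
        abs_of_pos hMe, norm_exp]
      have h2 : (-((M : ℂ) * V (cp z bc))).re = -(M * (V (cp z bc)).re) := by simp
      rw [h2, div_le_iff₀ hMe]
      calc ‖Φ M (cp z bc)‖ * Real.exp (-(M * (V (cp z bc)).re))
          ≤ (C * (M : ℝ) ^ e * Real.exp (M * (V (cp z bc)).re)) *
            Real.exp (-(M * (V (cp z bc)).re)) :=
            mul_le_mul_of_nonneg_right h1 (Real.exp_pos _).le
        _ = C * (M : ℝ) ^ e := by
            rw [mul_assoc, ← Real.exp_add, add_neg_cancel, Real.exp_zero, mul_one]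
    · rw [Set.indicator_of_notMem hzS, norm_zero]
      exact hC0.le
  · -- decay
    refine Eventually.of_forall fun M z hzA => ?_
    have h1 : z ∈ bx ac R := by
      by_contra h2
      apply hzA
      unfold Lap_A
      rw [Set.indicator_of_notMem h2]
    have h2 := (hdec z h1).2
    rw [sub_re]
    linarith
  · -- the limit of the amplitude
    intro ξ
    have h2 := hAl (fun M => cp (ac + (1 / Real.sqrt M : ℝ) • ξ) bc)
      (((Lap_cp_cont bc).tendsto ac).comp (hp ξ))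
    refine h2.congr' ?_
    filter_upwards [(hp ξ).eventually hn] with M hM
    have hM' : ac + (1 / Real.sqrt M : ℝ) • ξ ∈ bx ac R := hM
    unfold Lap_A
    rw [Set.indicator_of_mem hM']

end Pool.Agent.S3.Asm
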