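import Pool.Agent.S3.Asm.Def

/-! # Reduction to a small box -/

namespace Pool.Agent.S3.Asm

open Complex Filter Topology MeasureTheory Pool.Agent.H63.GO
open scoped BigOperators

variable {ι ε : Type} [Fintype ι] [Fintype ε] {inc : ε → Finset ι}
  {g : ℕ → ι → ℝ → ℂ} {K : ℕ → ε → (ι → ℝ) → ℂ} {f : ℕ → ε → (ι → ℝ) → ℝ → ℂ}
  {ga : ι → ℝ → ℝ} {ka : ε → (ι → ℝ) → ℝ} {w : ι → ℝ → ℝ} {xc : ι → ℝ} {m : ℝ}

/-- A product of bounds. -/
private theorem Far_prod {α : Type} [Fintype α] (D M : ℝ) (p : ℕ) (a : α → ℝ) :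
    ∏ q, (D * M ^ p * Real.exp (M * a q)) =
      D ^ Fintype.card α * M ^ (p * Fintype.card α) * Real.exp (M * ∑ q, a q) := by
  rw [Finset.prod_mul_distrib, Finset.prod_const, Finset.card_univ, ← Real.exp_sum,
    ← Finset.mul_sum, mul_pow, ← pow_mul]

/-- The product of the vertex factors. -/
private theorem Far_g (hD : AsmD inc g K f ga ka w xc m) :
    ∃ C : ℝ, 0 < C ∧ ∃ p : ℕ, ∀ᶠ M : ℕ in atTop, ∀ x : ι → ℝ,
      ‖∏ i, g M i (x i)‖ ≤
        C * (M : ℝ) ^ p * Real.exp (M * ∑ i, ga i (x i)) * ∏ i, w i (x i) := by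
  obtain ⟨C, hC, p, h⟩ := hD.g_bd
  refine ⟨C ^ Fintype.card ι, by positivity, p * Fintype.card ι, ?_⟩
  filter_upwards [h] with M hM x
  rw [norm_prod]
  calc ∏ i, ‖g M i (x i)‖ ≤ ∏ i, (C * (M : ℝ) ^ p * Real.exp (M * ga i (x i)) * w i (x i)) :=
        Finset.prod_le_prod (fun i _ => norm_nonneg _) (fun i _ => hM i (x i))
    _ = _ := by rw [Finset.prod_mul_distrib, Far_prod]

/-- A telescoping estimate. -/
private theorem Far_tel {α : Type} (s : Finset α) (a b : α → ℂ) (B : α → ℝ) (θ : ℝ) (hθ : 0 ≤ θ)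
    (ha : ∀ q, ‖a q‖ ≤ B q) (hb : ∀ q, ‖b q‖ ≤ B q) (hab : ∀ q, ‖a q - b q‖ ≤ θ * B q) :
    ‖∏ q ∈ s, a q - ∏ q ∈ s, b q‖ ≤ s.card * θ * ∏ q ∈ s, B q := by
  classical
  induction s using Finset.induction_on with
  | empty => simp
  | insert q s hq ih =>
    have hB : ∀ q, 0 ≤ B q := fun q => le_trans (norm_nonneg _) (ha q)
    have hP : ‖∏ q ∈ s, b q‖ ≤ ∏ q ∈ s, B q := by
      rw [norm_prod]
      exact Finset.prod_le_prod (fun i _ => norm_nonneg _) (fun i _ => hb i)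
    have hPn : 0 ≤ ∏ q ∈ s, B q := Finset.prod_nonneg fun i _ => hB i
    rw [Finset.prod_insert hq, Finset.prod_insert hq, Finset.prod_insert hq,
      Finset.card_insert_of_notMem hq]
    have e : a q * ∏ q ∈ s, a q - b q * ∏ q ∈ s, b q =
        a q * (∏ q ∈ s, a q - ∏ q ∈ s, b q) + (a q - b q) * ∏ q ∈ s, b q := by ring
    rw [e]
    calc ‖a q * (∏ q ∈ s, a q - ∏ q ∈ s, b q) + (a q - b q) * ∏ q ∈ s, b q‖
        ≤ ‖a q * (∏ q ∈ s, a q - ∏ q ∈ s, b q)‖ + ‖(a q - b q) * ∏ q ∈ s, b q‖ := norm_add_le _ _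
      _ = ‖a q‖ * ‖∏ q ∈ s, a q - ∏ q ∈ s, b q‖ + ‖a q - b q‖ * ‖∏ q ∈ s, b q‖ := by
          rw [norm_mul, norm_mul]
      _ ≤ B q * (s.card * θ * ∏ q ∈ s, B q) + θ * B q * ∏ q ∈ s, B q :=
          add_le_add (mul_le_mul (ha q) ih (norm_nonneg _) (hB q))
            (mul_le_mul (hab q) hP (norm_nonneg _) (mul_nonneg hθ (hB q)))
      _ = _ := by push_cast; ring

/-- Combining the vertex factors with a bound for the edge factors. -/
private theorem Far_comb (hD : AsmD inc g K f ga ka w xc m) {C1 C2 M : ℝ} {p1 p2 : ℕ} (δ : ℝ)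
    {x : ι → ℝ} {u v : ℂ}
    (hu : ‖u‖ ≤ C1 * M ^ p1 * Real.exp (M * ∑ i, ga i (x i)) * ∏ i, w i (x i))
    (hv : ‖v‖ ≤ C2 * M ^ p2 * Real.exp (M * (∑ q, ka q x - δ))) :
    ‖u * v‖ ≤ C1 * C2 * M ^ (p1 + p2) * Real.exp (M * (m - δ)) * ∏ i, w i (x i) := by
  have h1 : 0 ≤ C1 * M ^ p1 * Real.exp (M * ∑ i, ga i (x i)) * ∏ i, w i (x i) :=
    le_trans (norm_nonneg _) hu
  rw [norm_mul]
  refine (mul_le_mul hu hv (norm_nonneg _) h1).trans (le_of_eq ?_)
  have h2 : M * (m - δ) = M * ∑ i, ga i (x i) + M * (∑ q, ka q x - δ) := by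
    rw [← hD.sum x]
    ring
  rw [h2, Real.exp_add, pow_add]
  ring

/-- The weights. -/
private theorem Far_w (hD : AsmD inc g K f ga ka w xc m) :
    Integrable (fun x : ι → ℝ => ∏ i, w i (x i)) := by
  have h := Integrable.fintype_prod (μ := fun _ : ι => (volume : Measure ℝ)) (f := fun i => w i)
    (fun i => hD.w_int i)
  exact h

private theorem Far_w0 (hD : AsmD inc g K f ga ka w xc m) (x : ι → ℝ) : 0 ≤ ∏ i, w i (x i) :=
  Finset.prod_nonneg fun i _ => hD.w_nn i (x i)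

/-- `M ^ p ≤ M ^ (p + q)`. -/
private theorem Far_pow {M : ℝ} (hM : 1 ≤ M) (p q : ℕ) : M ^ p ≤ M ^ (p + q) :=
  pow_le_pow_right₀ hM (Nat.le_add_right p q)

/-- The integrand is integrable. -/
theorem gK_int (hD : AsmD inc g K f ga ka w xc m) :
    ∀ᶠ M in atTop, Integrable (gK g K M) := by
  obtain ⟨C1, hC1, p1, h1⟩ := Far_g hD
  obtain ⟨C2, hC2, p2, h2⟩ := hD.K_bd
  filter_upwards [h1, h2, hD.g_meas, hD.K_cont] with M h1 h2 h3 h4
  have hc : AEStronglyMeasurable (gK g K M) := by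
    unfold gK
    refine AEStronglyMeasurable.mul ?_ ?_
    · exact Finset.aestronglyMeasurable_fun_prod _ fun i _ =>
        (h3 i).comp_quasiMeasurePreserving (Measure.quasiMeasurePreserving_eval _ i)
    · exact (continuous_finsetProd _ fun q _ => h4 q).aestronglyMeasurable
  refine Integrable.mono' ((Far_w hD).const_mul (C1 * C2 ^ Fintype.card ε *
    (M : ℝ) ^ (p1 + p2 * Fintype.card ε) * Real.exp (M * (m - 0)))) hc ?_
  refine Eventually.of_forall fun x => ?_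
  refine Far_comb hD 0 (h1 x) ?_
  rw [norm_prod, sub_zero]
  refine (Finset.prod_le_prod (fun i _ => norm_nonneg _) (fun q _ => h2 q x)).trans (le_of_eq ?_)
  exact Far_prod _ _ _ _

/-- The integral outside of a box is exponentially small. -/
theorem far (hD : AsmD inc g K f ga ka w xc m) (r : ℝ) (hr : 0 < r) :
    ∃ δ : ℝ, 0 < δ ∧ ∃ C : ℝ, 0 < C ∧ ∃ p : ℕ, ∀ᶠ M : ℕ in atTop,
      ‖(∫ x, gK g K M x) - ∫ x in bx xc (fun _ => r), gK g K M x‖ ≤
        C * (M : ℝ) ^ p * Real.exp (M * (m - δ)) := by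
  classical
  obtain ⟨C1, hC1, p1, h1⟩ := Far_g hD
  obtain ⟨C2, hC2, p2, h2⟩ := hD.K_bd
  obtain ⟨δ, hδ, C3, hC3, p3, h3⟩ := hD.K_far r hr
  have hW0 : 0 ≤ ∫ x : ι → ℝ, ∏ i, w i (x i) := integral_nonneg (Far_w0 hD)
  refine ⟨δ, hδ, C1 * (C2 + C3) ^ Fintype.card ε * ((∫ x : ι → ℝ, ∏ i, w i (x i)) + 1),
    by positivity, p1 + (p2 + p3) * Fintype.card ε, ?_⟩
  filter_upwards [h1, h2, h3, gK_int hD, eventually_ge_atTop 1] with M h1 h2 h3 h4 h5
  have hM : (1 : ℝ) ≤ M := by exact_mod_cast h5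
  have hM0 : (0 : ℝ) ≤ M := by linarith
  have hmeas : MeasurableSet (bx xc (fun _ => r)) := by
    have : bx xc (fun _ => r) = ⋂ j, {x : ι → ℝ | |x j - xc j| ≤ r} := by
      ext x
      simp [bx]
    rw [this]
    exact (isClosed_iInter fun j => isClosed_le (by fun_prop) continuous_const).measurableSet
  have hsplit : (∫ x, gK g K M x) - ∫ x in bx xc (fun _ => r), gK g K M x =
      ∫ x in (bx xc (fun _ => r))ᶜ, gK g K M x := by
    rw [← integral_add_compl hmeas h4]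
    ring
  rw [hsplit]
  -- the bound outside of the box
  have key : ∀ x ∈ (bx xc (fun _ => r))ᶜ, ‖gK g K M x‖ ≤ C1 * (C2 + C3) ^ Fintype.card ε *
      (M : ℝ) ^ (p1 + (p2 + p3) * Fintype.card ε) * Real.exp (M * (m - δ)) *
        ∏ i, w i (x i) := by
    intro x hx
    have hx' : ∃ j, r < |x j - xc j| := by
      by_contra hn
      push Not at hn
      exact hx hn
    obtain ⟨j, hj⟩ := hx'
    obtain ⟨q0, hq0⟩ := hD.cov j
    refine Far_comb hD δ (h1 x) ?_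
    have hB0 : ∀ q, 0 < (C2 + C3) * (M : ℝ) ^ (p2 + p3) * Real.exp (M * ka q x) := by
      intro q
      have : (0 : ℝ) < (M : ℝ) := by linarith
      positivity
    have hB : ∀ q, ‖K M q x‖ ≤ (C2 + C3) * (M : ℝ) ^ (p2 + p3) * Real.exp (M * ka q x) := by
      intro q
      refine (h2 q x).trans ?_
      refine mul_le_mul_of_nonneg_right ?_ (Real.exp_pos _).le
      exact mul_le_mul (by linarith) (Far_pow hM _ _) (by positivity) (by positivity)
    have hB1 : ‖K M q0 x‖ ≤ Real.exp (-(M * δ)) *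
        ((C2 + C3) * (M : ℝ) ^ (p2 + p3) * Real.exp (M * ka q0 x)) := by
      refine (h3 q0 x ⟨j, hq0, hj.le⟩).trans ?_
      have e : Real.exp (M * (ka q0 x - δ)) = Real.exp (-(M * δ)) * Real.exp (M * ka q0 x) := by
        rw [← Real.exp_add]
        congr 1
        ring
      rw [e]
      have e2 : C3 * (M : ℝ) ^ p3 ≤ (C2 + C3) * (M : ℝ) ^ (p2 + p3) := by
        refine mul_le_mul (by linarith) ?_ (by positivity) (by positivity)
        rw [add_comm p2 p3]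
        exact Far_pow hM _ _
      have e3 : 0 ≤ Real.exp (-(M * δ)) * Real.exp (M * ka q0 x) := by positivity
      calc C3 * (M : ℝ) ^ p3 * (Real.exp (-(M * δ)) * Real.exp (M * ka q0 x))
          ≤ (C2 + C3) * (M : ℝ) ^ (p2 + p3) * (Real.exp (-(M * δ)) * Real.exp (M * ka q0 x)) :=
            mul_le_mul_of_nonneg_right e2 e3
        _ = _ := by ring
    rw [norm_prod, ← Finset.mul_prod_erase Finset.univ _ (Finset.mem_univ q0)]
    have hE : ∏ q ∈ Finset.univ.erase q0, ‖K M q x‖ ≤ ∏ q ∈ Finset.univ.erase q0,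
        ((C2 + C3) * (M : ℝ) ^ (p2 + p3) * Real.exp (M * ka q x)) :=
      Finset.prod_le_prod (fun i _ => norm_nonneg _) (fun q _ => hB q)
    refine (mul_le_mul hB1 hE (Finset.prod_nonneg fun i _ => norm_nonneg _)
      (mul_nonneg (Real.exp_pos _).le (hB0 q0).le)).trans (le_of_eq ?_)
    rw [mul_assoc, Finset.mul_prod_erase Finset.univ
      (fun q => (C2 + C3) * (M : ℝ) ^ (p2 + p3) * Real.exp (M * ka q x)) (Finset.mem_univ q0),
      Far_prod]
    have e : Real.exp (M * (∑ q, ka q x - δ)) =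
        Real.exp (-(M * δ)) * Real.exp (M * ∑ q, ka q x) := by
      rw [← Real.exp_add]
      congr 1
      ring
    rw [e]
    ring
  have hint := (Far_w hD).const_mul (C1 * (C2 + C3) ^ Fintype.card ε *
      (M : ℝ) ^ (p1 + (p2 + p3) * Fintype.card ε) * Real.exp (M * (m - δ)))
  have hA : 0 ≤ C1 * (C2 + C3) ^ Fintype.card ε *
      (M : ℝ) ^ (p1 + (p2 + p3) * Fintype.card ε) * Real.exp (M * (m - δ)) := by positivity
  calc ‖∫ x in (bx xc (fun _ => r))ᶜ, gK g K M x‖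
      ≤ ∫ x in (bx xc (fun _ => r))ᶜ, C1 * (C2 + C3) ^ Fintype.card ε *
          (M : ℝ) ^ (p1 + (p2 + p3) * Fintype.card ε) * Real.exp (M * (m - δ)) *
            ∏ i, w i (x i) := by
        refine norm_integral_le_of_norm_le hint.integrableOn ?_
        exact (ae_restrict_iff' hmeas.compl).mpr (Eventually.of_forall key)
    _ ≤ ∫ x : ι → ℝ, C1 * (C2 + C3) ^ Fintype.card ε *
          (M : ℝ) ^ (p1 + (p2 + p3) * Fintype.card ε) * Real.exp (M * (m - δ)) *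
            ∏ i, w i (x i) := by
        refine setIntegral_le_integral hint ?_
        exact Eventually.of_forall fun x => mul_nonneg hA (Far_w0 hD x)
    _ = C1 * (C2 + C3) ^ Fintype.card ε *
          (M : ℝ) ^ (p1 + (p2 + p3) * Fintype.card ε) * Real.exp (M * (m - δ)) *
            ∫ x : ι → ℝ, ∏ i, w i (x i) := by
        rw [integral_const_mul]
    _ ≤ C1 * (C2 + C3) ^ Fintype.card ε *
          (M : ℝ) ^ (p1 + (p2 + p3) * Fintype.card ε) * Real.exp (M * (m - δ)) *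
            ((∫ x : ι → ℝ, ∏ i, w i (x i)) + 1) :=
        mul_le_mul_of_nonneg_left (by linarith) hA
    _ = _ := by ring

/-- Inside of a small box the kernels can be replaced by the local integrals. -/
theorem hyb (hD : AsmD inc g K f ga ka w xc m) : ∃ r1 : ℝ, 0 < r1 ∧ ∀ r : ℝ, 0 < r → r ≤ r1 →
    ∃ ρ0 : ℝ, 0 < ρ0 ∧ ∀ ρ : ℝ, 0 < ρ → ρ ≤ ρ0 → ∃ δ : ℝ, 0 < δ ∧ ∃ C : ℝ, 0 < C ∧ ∃ p : ℕ,
    ∀ᶠ M : ℕ in atTop, ∀ x ∈ bx xc (fun _ => ρ),
      ‖gK g K M x - (∏ i, g M i (x i)) * ∏ q, ∫ s in (-r)..r, f M q x s‖ ≤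
        C * (M : ℝ) ^ p * Real.exp (M * (m - δ)) * ∏ i, w i (x i) := by
  obtain ⟨C1, hC1, p1, h1⟩ := Far_g hD
  obtain ⟨C2, hC2, p2, h2⟩ := hD.K_bd
  obtain ⟨r1, hr1, H⟩ := hD.K_loc
  refine ⟨r1, hr1, fun r hr hrr => ?_⟩
  obtain ⟨ρ0, hρ0, δ, hδ, C3, hC3, p3, h3⟩ := H r hr hrr
  refine ⟨ρ0, hρ0, fun ρ hρ hρρ => ⟨δ, hδ,
    C1 * ((Fintype.card ε + 1) * (C2 + C3) ^ Fintype.card ε), by positivity,
    p1 + (p2 + p3) * Fintype.card ε, ?_⟩⟩
  filter_upwards [h1, h2, h3, eventually_ge_atTop 1] with M h1 h2 h3 h5 x hx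
  have hM : (1 : ℝ) ≤ M := by exact_mod_cast h5
  have hM0 : (0 : ℝ) < M := by linarith
  have hx0 : x ∈ bx xc (fun _ => ρ0) := fun j => (hx j).trans hρρ
  have e0 : gK g K M x - (∏ i, g M i (x i)) * ∏ q, ∫ s in (-r)..r, f M q x s =
      (∏ i, g M i (x i)) * (∏ q, K M q x - ∏ q, ∫ s in (-r)..r, f M q x s) := by
    unfold gK
    ring
  rw [e0]
  refine Far_comb hD δ (h1 x) ?_
  have hB : ∀ q, ‖K M q x‖ ≤ (C2 + C3) * (M : ℝ) ^ (p2 + p3) * Real.exp (M * ka q x) := by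
    intro q
    refine (h2 q x).trans ?_
    refine mul_le_mul_of_nonneg_right ?_ (Real.exp_pos _).le
    exact mul_le_mul (by linarith) (Far_pow hM _ _) (by positivity) (by positivity)
  have hE : ∀ q, Real.exp (M * (ka q x - δ)) = Real.exp (-(M * δ)) * Real.exp (M * ka q x) := by
    intro q
    rw [← Real.exp_add]
    congr 1
    ring
  have hθ1 : Real.exp (-(M * δ)) ≤ 1 := by
    rw [Real.exp_le_one_iff]
    have : 0 ≤ M * δ := by positivity
    linarith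
  have hp3 : (M : ℝ) ^ p3 ≤ (M : ℝ) ^ (p2 + p3) := by
    rw [add_comm p2 p3]
    exact Far_pow hM _ _
  have hd : ∀ q, ‖K M q x - ∫ s in (-r)..r, f M q x s‖ ≤ Real.exp (-(M * δ)) *
      ((C2 + C3) * (M : ℝ) ^ (p2 + p3) * Real.exp (M * ka q x)) := by
    intro q
    refine (h3 q x hx0).trans ?_
    rw [hE]
    have e2 : C3 * (M : ℝ) ^ p3 ≤ (C2 + C3) * (M : ℝ) ^ (p2 + p3) :=
      mul_le_mul (by linarith) hp3 (by positivity) (by positivity)
    have e3 : 0 ≤ Real.exp (-(M * δ)) * Real.exp (M * ka q x) := by positivity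
    calc C3 * (M : ℝ) ^ p3 * (Real.exp (-(M * δ)) * Real.exp (M * ka q x))
        ≤ (C2 + C3) * (M : ℝ) ^ (p2 + p3) * (Real.exp (-(M * δ)) * Real.exp (M * ka q x)) :=
          mul_le_mul_of_nonneg_right e2 e3
      _ = _ := by ring
  have hL : ∀ q, ‖∫ s in (-r)..r, f M q x s‖ ≤
      (C2 + C3) * (M : ℝ) ^ (p2 + p3) * Real.exp (M * ka q x) := by
    intro q
    have e1 : ‖∫ s in (-r)..r, f M q x s‖ ≤ ‖K M q x‖ + ‖K M q x - ∫ s in (-r)..r, f M q x s‖ := by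
      have := norm_sub_norm_le (∫ s in (-r)..r, f M q x s) (K M q x)
      rw [norm_sub_rev] at this
      linarith
    refine e1.trans ?_
    have e2 := h2 q x
    have e3 := h3 q x hx0
    rw [hE] at e3
    have e4 : C3 * (M : ℝ) ^ p3 * (Real.exp (-(M * δ)) * Real.exp (M * ka q x)) ≤
        C3 * (M : ℝ) ^ (p2 + p3) * Real.exp (M * ka q x) := by
      have e5 : Real.exp (-(M * δ)) * Real.exp (M * ka q x) ≤ Real.exp (M * ka q x) :=
        mul_le_of_le_one_left (Real.exp_pos _).le hθ1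
      exact mul_le_mul (mul_le_mul_of_nonneg_left hp3 hC3.le) e5 (by positivity) (by positivity)
    have e6 : C2 * (M : ℝ) ^ p2 * Real.exp (M * ka q x) ≤
        C2 * (M : ℝ) ^ (p2 + p3) * Real.exp (M * ka q x) :=
      mul_le_mul_of_nonneg_right (mul_le_mul_of_nonneg_left (Far_pow hM _ _) hC2.le)
        (Real.exp_pos _).le
    calc ‖K M q x‖ + ‖K M q x - ∫ s in (-r)..r, f M q x s‖
        ≤ C2 * (M : ℝ) ^ (p2 + p3) * Real.exp (M * ka q x) +
          C3 * (M : ℝ) ^ (p2 + p3) * Real.exp (M * ka q x) :=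
          add_le_add (e2.trans e6) (e3.trans e4)
      _ = _ := by ring
  have hT := Far_tel Finset.univ (fun q => K M q x) (fun q => ∫ s in (-r)..r, f M q x s)
    (fun q => (C2 + C3) * (M : ℝ) ^ (p2 + p3) * Real.exp (M * ka q x)) (Real.exp (-(M * δ)))
    (Real.exp_pos _).le hB hL hd
  refine hT.trans ?_
  rw [Far_prod, Finset.card_univ]
  have e : Real.exp (M * (∑ q, ka q x - δ)) =
      Real.exp (-(M * δ)) * Real.exp (M * ∑ q, ka q x) := by
    rw [← Real.exp_add]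
    congr 1
    ring
  rw [e]
  have hnn : 0 ≤ Real.exp (-(M * δ)) * ((C2 + C3) ^ Fintype.card ε *
      (M : ℝ) ^ ((p2 + p3) * Fintype.card ε) * Real.exp (M * ∑ q, ka q x)) := by positivity
  calc (Fintype.card ε : ℝ) * Real.exp (-(M * δ)) * ((C2 + C3) ^ Fintype.card ε *
      (M : ℝ) ^ ((p2 + p3) * Fintype.card ε) * Real.exp (M * ∑ q, ka q x))
      = (Fintype.card ε : ℝ) * (Real.exp (-(M * δ)) * ((C2 + C3) ^ Fintype.card ε *
      (M : ℝ) ^ ((p2 + p3) * Fintype.card ε) * Real.exp (M * ∑ q, ka q x))) := by ring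
    _ ≤ ((Fintype.card ε : ℝ) + 1) * (Real.exp (-(M * δ)) * ((C2 + C3) ^ Fintype.card ε *
      (M : ℝ) ^ ((p2 + p3) * Fintype.card ε) * Real.exp (M * ∑ q, ka q x))) :=
        mul_le_mul_of_nonneg_right (by linarith) hnn
    _ = _ := by ring

end Pool.Agent.S3.Asm
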