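import Pool.Agent.S3.Asm.Def

/-! # Products of integrals over segments as an integral over a box -/

namespace Pool.Agent.S3.Asm

open Complex Filter Topology MeasureTheory Pool.Agent.H63.GO
open scoped BigOperators

private theorem Fub_bx {ι : Type} (a R : ι → ℝ) :
    bx a R = Set.pi Set.univ (fun j => Set.Icc (a j - R j) (a j + R j)) := by
  ext x
  simp only [bx, Set.mem_ofPred_eq, Set.mem_univ_pi, Set.mem_Icc]
  refine forall_congr' fun j => ?_
  rw [abs_le]
  constructor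
  · rintro ⟨h1, h2⟩
    exact ⟨by linarith, by linarith⟩
  · rintro ⟨h1, h2⟩
    exact ⟨by linarith, by linarith⟩

private theorem Fub_prod {ε : Type} [Fintype ε] (r : ℝ) (hr : 0 < r) (f : ε → ℝ → ℂ) :
    ∫ s in bx (fun _ : ε => (0 : ℝ)) (fun _ => r), ∏ q, f q (s q) =
      ∏ q, ∫ s in (-r)..r, f q s := by
  have h1 := integral_fintype_prod_eq_prod (ι := ε) (𝕜 := ℂ) f
    (μ := fun _ => (volume : Measure ℝ).restrict (Set.Icc (0 - r) (0 + r)))
  rw [Fub_bx, volume_pi, Measure.restrict_pi_pi, h1]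
  refine Finset.prod_congr rfl fun i _ => ?_
  rw [intervalIntegral.integral_of_le (by linarith), ← integral_Icc_eq_integral_Ioc, zero_sub,
    zero_add]

/-- Products of integrals. -/
theorem fub {ι ε : Type} [Fintype ι] [Fintype ε] (G : (ι → ℝ) → ℂ) (f : ε → (ι → ℝ) → ℝ → ℂ)
    (xc : ι → ℝ) (ρ r : ℝ) (hρ : 0 < ρ) (hr : 0 < r)
    (hc : ContinuousOn (fun a : ι ⊕ ε → ℝ => G (fun i => a (Sum.inl i)) *
      ∏ q, f q (fun i => a (Sum.inl i)) (a (Sum.inr q)))
      (bx (Sum.elim xc (fun _ => 0)) (Sum.elim (fun _ => ρ) (fun _ => r)))) :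
    IntegrableOn (fun x => G x * ∏ q, ∫ s in (-r)..r, f q x s) (bx xc (fun _ => ρ)) ∧
    ∫ x in bx xc (fun _ => ρ), G x * ∏ q, ∫ s in (-r)..r, f q x s =
      ∫ a in bx (Sum.elim xc (fun _ => 0)) (Sum.elim (fun _ => ρ) (fun _ => r)),
        G (fun i => a (Sum.inl i)) * ∏ q, f q (fun i => a (Sum.inl i)) (a (Sum.inr q)) := by
  classical
  set F : (ι → ℝ) × (ε → ℝ) → ℂ := fun z => G z.1 * ∏ q, f q z.1 (z.2 q) with hF
  have h1 := volume_measurePreserving_sumPiEquivProdPi (fun _ : ι ⊕ ε => ℝ)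
  have hpre : (MeasurableEquiv.sumPiEquivProdPi (fun _ : ι ⊕ ε => ℝ)) ⁻¹'
      ((bx xc (fun _ => ρ)) ×ˢ (bx (fun _ : ε => (0 : ℝ)) (fun _ => r))) =
      bx (Sum.elim xc (fun _ => 0)) (Sum.elim (fun _ => ρ) (fun _ => r)) := by
    ext z
    simp only [bx, Set.mem_preimage, Set.mem_prod, Set.mem_ofPred_eq, Sum.forall, Sum.elim_inl,
      Sum.elim_inr]
    rfl
  have hcomp : IsCompact (bx (Sum.elim xc (fun _ : ε => 0))
      (Sum.elim (fun _ => ρ) (fun _ => r)) : Set (ι ⊕ ε → ℝ)) := by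
    rw [Fub_bx]
    exact isCompact_univ_pi fun _ => isCompact_Icc
  have hI1 : IntegrableOn (F ∘ (MeasurableEquiv.sumPiEquivProdPi (fun _ : ι ⊕ ε => ℝ)))
      ((MeasurableEquiv.sumPiEquivProdPi (fun _ : ι ⊕ ε => ℝ)) ⁻¹'
      ((bx xc (fun _ => ρ)) ×ˢ (bx (fun _ : ε => (0 : ℝ)) (fun _ => r)))) := by
    rw [hpre]
    exact hc.integrableOn_compact hcomp
  have hI2 : IntegrableOn F ((bx xc (fun _ => ρ)) ×ˢ (bx (fun _ : ε => (0 : ℝ)) (fun _ => r))) :=
    (h1.integrableOn_comp_preimage (MeasurableEquiv.measurableEmbedding _)).1 hI1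
  have hI3 : Integrable F (((volume : Measure (ι → ℝ)).restrict (bx xc (fun _ => ρ))).prod
      ((volume : Measure (ε → ℝ)).restrict (bx (fun _ : ε => (0 : ℝ)) (fun _ => r)))) := by
    rw [Measure.prod_restrict, ← Measure.volume_eq_prod]
    exact hI2
  have hin : ∀ x : ι → ℝ, ∫ s in bx (fun _ : ε => (0 : ℝ)) (fun _ => r), F (x, s) =
      G x * ∏ q, ∫ s in (-r)..r, f q x s := by
    intro x
    rw [← Fub_prod r hr (fun q => f q x), ← integral_const_mul]
  constructor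
  · have h2 := hI3.integral_prod_left
    have h3 : (fun x => G x * ∏ q, ∫ s in (-r)..r, f q x s) =
        fun x => ∫ s in bx (fun _ : ε => (0 : ℝ)) (fun _ => r), F (x, s) :=
      funext fun x => (hin x).symm
    rw [h3]
    exact h2
  · have h2 := h1.setIntegral_preimage_emb (MeasurableEquiv.measurableEmbedding _) F
      ((bx xc (fun _ => ρ)) ×ˢ (bx (fun _ : ε => (0 : ℝ)) (fun _ => r)))
    rw [hpre] at h2
    have h4 : ∫ z in (bx xc (fun _ => ρ)) ×ˢ (bx (fun _ : ε => (0 : ℝ)) (fun _ => r)), F z =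
        ∫ x in bx xc (fun _ => ρ), ∫ s in bx (fun _ : ε => (0 : ℝ)) (fun _ => r), F (x, s) := by
      rw [Measure.volume_eq_prod, ← Measure.prod_restrict]
      exact integral_prod _ hI3
    have h5 : ∫ x in bx xc (fun _ => ρ), G x * ∏ q, ∫ s in (-r)..r, f q x s =
        ∫ x in bx xc (fun _ => ρ), ∫ s in bx (fun _ : ε => (0 : ℝ)) (fun _ => r), F (x, s) := by
      congr 1
      exact funext fun x => (hin x).symm
    rw [h5, ← h4, ← h2]
    rfl

end Pool.Agent.S3.Asm
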