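import Pool.Agent.S3.Asm.Lap
import Pool.Agent.S3.Asm.Far
import Pool.Agent.S3.Asm.Fub

/-! # The abstract assembly theorem -/

namespace Pool.Agent.S3.Asm

open Complex Filter Topology MeasureTheory Pool.Agent.H63.GO
open scoped BigOperators

/-- Boxes are closed. -/
private theorem Asm_bx_closed {ι : Type} [Fintype ι] (a R : ι → ℝ) : IsClosed (bx a R) := by
  have : bx a R = ⋂ j, {x : ι → ℝ | |x j - a j| ≤ R j} := by
    ext x; simp [bx]
  rw [this]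
  refine isClosed_iInter fun j => ?_
  exact isClosed_le (by fun_prop) continuous_const

private theorem Asm_cp_cont {ι : Type} [Fintype ι] (b : ι → ℝ) :
    Continuous (fun a : ι → ℝ => cp a b) := by
  unfold cp
  fun_prop

/-- A power times an exponentially small factor tends to zero. -/
private theorem Asm_small (N e m δ C : ℝ) (p : ℕ) (hδ : 0 < δ) :
    Tendsto (fun M : ℕ => (M : ℝ) ^ N * (C * (M : ℝ) ^ p * Real.exp (M * (m - δ))) /
      ((M : ℝ) ^ e * Real.exp (M * m))) atTop (𝓝 0) := by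
  have h1 : Tendsto (fun x : ℝ => x ^ (N + p - e) * Real.exp (-δ * x)) atTop (𝓝 0) :=
    tendsto_rpow_mul_exp_neg_mul_atTop_nhds_zero _ _ hδ
  have h2 := (h1.comp tendsto_natCast_atTop_atTop (α := ℕ)).const_mul C
  rw [mul_zero] at h2
  refine h2.congr' ?_
  filter_upwards [eventually_gt_atTop 0] with M hM
  have hM' : (0 : ℝ) < M := by exact_mod_cast hM
  simp only [Function.comp_apply]
  rw [Real.rpow_sub hM', Real.rpow_add hM', Real.rpow_natCast]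
  have h3 : Real.exp (M * (m - δ)) = Real.exp (-δ * M) * Real.exp (M * m) := by
    rw [← Real.exp_add]; congr 1; ring
  rw [h3]
  have h4 : (M : ℝ) ^ e ≠ 0 := (Real.rpow_pos_of_pos hM' e).ne'
  have h5 : Real.exp ((M : ℝ) * m) ≠ 0 := (Real.exp_pos _).ne'
  field_simp

/-- The asymptotics of the integral of the product of the vertex factors and the edge kernels. -/
theorem asm {ι ε : Type} [Fintype ι] [Fintype ε] [DecidableEq ι] [DecidableEq ε]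
    {inc : ε → Finset ι} {g : ℕ → ι → ℝ → ℂ} {K : ℕ → ε → (ι → ℝ) → ℂ}
    {f : ℕ → ε → (ι → ℝ) → ℝ → ℂ} {ga : ι → ℝ → ℝ} {ka : ε → (ι → ℝ) → ℝ} {w : ι → ℝ → ℝ}
    {xc : ι → ℝ} {m : ℝ} (hD : AsmD inc g K f ga ka w xc m)
    {V : (ι ⊕ ε → ℂ) → ℂ} {U : Set (ι ⊕ ε → ℂ)} (hU : IsOpen U) (hV : AnalyticOnNhd ℂ V U)
    (bc : ι ⊕ ε → ℝ) (hz : cp (Sum.elim xc (fun _ => 0)) bc ∈ U)
    (hg : ∀ ξ : ι ⊕ ε → ℝ, fderiv ℂ V (cp (Sum.elim xc (fun _ => 0)) bc) (rc ξ) = 0)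
    (hneg : ∀ ξ : ι ⊕ ε → ℝ, ξ ≠ 0 →
      (D2 V (cp (Sum.elim xc (fun _ => 0)) bc) (rc ξ)).re < 0)
    (hm : (V (cp (Sum.elim xc (fun _ => 0)) bc)).re = m)
    (Φ : ℕ → (ι ⊕ ε → ℂ) → ℂ) (e : ℝ)
    (hcont : ∀ᶠ M in atTop, ContinuousOn (Φ M) U)
    (hbd : ∃ C : ℝ, 0 < C ∧ ∀ᶠ M : ℕ in atTop, ∀ z ∈ U,
      ‖Φ M z‖ ≤ C * (M : ℝ) ^ e * Real.exp (M * (V z).re))
    (hL : ALim V Φ e (cp (Sum.elim xc (fun _ => 0)) bc))
    (hΦ : ∀ᶠ M in atTop, ∀ a : ι ⊕ ε → ℝ, cp a bc ∈ U → Φ M (cp a bc) =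
      (∏ i, g M i (a (Sum.inl i))) * ∏ q, f M q (fun i => a (Sum.inl i)) (a (Sum.inr q))) :
    ∃ κ : ℂ, κ ≠ 0 ∧ Tendsto (fun M : ℕ =>
      (((M : ℝ) ^ ((Fintype.card (ι ⊕ ε) : ℝ) / 2) : ℝ) : ℂ) * (∫ x, gK g K M x) /
      ((((M : ℝ) ^ e : ℝ) : ℂ) * exp (M * V (cp (Sum.elim xc (fun _ => 0)) bc))))
      atTop (𝓝 κ) := by
  classical
  obtain ⟨r0, hr0, c, hc, hdec⟩ := dec_loc hU hV (Sum.elim xc (fun _ => 0)) bc hz hg hneg
  obtain ⟨r1, hr1, hhyb⟩ := hyb hD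
  set r : ℝ := min r0 r1 with hrdef
  have hr : 0 < r := lt_min hr0 hr1
  obtain ⟨ρ0, hρ0, hhyb2⟩ := hhyb r hr (min_le_right _ _)
  set ρ : ℝ := min ρ0 r0 with hρdef
  have hρ : 0 < ρ := lt_min hρ0 hr0
  obtain ⟨δ1, hδ1, C1, hC1, p1, hy⟩ := hhyb2 ρ hρ (min_le_left _ _)
  obtain ⟨δ2, hδ2, C2, hC2, p2, hfar⟩ := far hD ρ hρ
  set ac : ι ⊕ ε → ℝ := Sum.elim xc (fun _ => 0) with hac
  set R : ι ⊕ ε → ℝ := Sum.elim (fun _ => ρ) (fun _ => r) with hRdef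
  have hR : ∀ j, 0 < R j := by
    rintro (j | j)
    · exact hρ
    · exact hr
  have hRle : ∀ j, R j ≤ r0 := by
    rintro (j | j)
    · exact min_le_right ρ0 r0
    · exact min_le_left r0 r1
  have hbox : ∀ a ∈ bx ac R, a ∈ bx ac (fun _ => r0) := fun a ha j => (ha j).trans (hRle j)
  have hdec' : ∀ a ∈ bx ac R, cp a bc ∈ U ∧
      (V (cp a bc)).re ≤ (V (cp ac bc)).re - c * ∑ j, (a j - ac j) ^ 2 :=
    fun a ha => hdec a (hbox a ha)
  have hcontB : ∀ᶠ M in atTop, ContinuousOn (fun a => Φ M (cp a bc)) (bx ac R) := by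
    filter_upwards [hcont] with M hM
    exact hM.comp (Asm_cp_cont bc).continuousOn (fun a ha => (hdec' a ha).1)
  have hbdB : ∃ C : ℝ, 0 < C ∧ ∀ᶠ M : ℕ in atTop, ∀ a ∈ bx ac R,
      ‖Φ M (cp a bc)‖ ≤ C * (M : ℝ) ^ e * Real.exp (M * (V (cp a bc)).re) := by
    obtain ⟨C, hC, h⟩ := hbd
    exact ⟨C, hC, h.mono fun M hM a ha => hM _ (hdec' a ha).1⟩
  obtain ⟨κ, hκ, hlim⟩ := lap_loc hU hV ac bc hz hg R hR c hc hdec' Φ e hcontB hbdB hL
  refine ⟨κ, hκ, ?_⟩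
  -- the weights
  have hwint : Integrable (fun x : ι → ℝ => ∏ i, w i (x i)) :=
    Integrable.fintype_prod (fun i => hD.w_int i)
  set W : ℝ := ∫ x : ι → ℝ, ∏ i, w i (x i) with hW
  have hwnn : ∀ x : ι → ℝ, 0 ≤ ∏ i, w i (x i) :=
    fun x => Finset.prod_nonneg fun i _ => hD.w_nn i (x i)
  -- the error
  have herr : ∀ᶠ M : ℕ in atTop,
      ‖(∫ x, gK g K M x) - ∫ a in bx ac R, Φ M (cp a bc)‖ ≤
        C2 * (M : ℝ) ^ p2 * Real.exp (M * (m - δ2)) +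
        (C1 * W) * (M : ℝ) ^ p1 * Real.exp (M * (m - δ1)) := by
    filter_upwards [hy, hfar, gK_int hD, hΦ, hcontB] with M hyM hfM hintM hΦM hcM
    have hmeasR : MeasurableSet (bx ac R) := (Asm_bx_closed ac R).measurableSet
    have hmeasρ : MeasurableSet (bx xc (fun _ : ι => ρ)) :=
      (Asm_bx_closed xc (fun _ : ι => ρ)).measurableSet
    have hcongr : Set.EqOn (fun a : ι ⊕ ε → ℝ => Φ M (cp a bc))
        (fun a => (∏ i, g M i (a (Sum.inl i))) *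
          ∏ q, f M q (fun i => a (Sum.inl i)) (a (Sum.inr q))) (bx ac R) :=
      fun a ha => hΦM a (hdec' a ha).1
    obtain ⟨hfubi, hfube⟩ := fub (fun x : ι → ℝ => ∏ i, g M i (x i)) (f M) xc ρ r hρ hr
      (hcM.congr hcongr.symm)
    have hI : ∫ a in bx ac R, Φ M (cp a bc) =
        ∫ x in bx xc (fun _ => ρ), (∏ i, g M i (x i)) * ∏ q, ∫ s in (-r)..r, f M q x s := by
      rw [hfube]
      exact setIntegral_congr_fun hmeasR hcongr
    have hdiff : ‖(∫ x in bx xc (fun _ => ρ), gK g K M x) -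
        ∫ x in bx xc (fun _ => ρ), (∏ i, g M i (x i)) * ∏ q, ∫ s in (-r)..r, f M q x s‖ ≤
        (C1 * W) * (M : ℝ) ^ p1 * Real.exp (M * (m - δ1)) := by
      rw [← integral_sub hintM.integrableOn hfubi]
      have hb : ∀ x ∈ bx xc (fun _ : ι => ρ),
          ‖gK g K M x - (∏ i, g M i (x i)) * ∏ q, ∫ s in (-r)..r, f M q x s‖ ≤
          C1 * (M : ℝ) ^ p1 * Real.exp (M * (m - δ1)) * ∏ i, w i (x i) := fun x hx => hyM x hx
      calc ‖∫ x in bx xc (fun _ => ρ), (gK g K M x -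
              (∏ i, g M i (x i)) * ∏ q, ∫ s in (-r)..r, f M q x s)‖
          ≤ ∫ x in bx xc (fun _ => ρ),
              C1 * (M : ℝ) ^ p1 * Real.exp (M * (m - δ1)) * ∏ i, w i (x i) := by
            refine norm_integral_le_of_norm_le (hwint.const_mul _).integrableOn ?_
            exact (ae_restrict_iff' hmeasρ).2 (Eventually.of_forall hb)
        _ ≤ ∫ x : ι → ℝ, C1 * (M : ℝ) ^ p1 * Real.exp (M * (m - δ1)) * ∏ i, w i (x i) := by
            refine setIntegral_le_integral (hwint.const_mul _) (Eventually.of_forall fun x => ?_)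
            have : (0 : ℝ) ≤ C1 * (M : ℝ) ^ p1 * Real.exp (M * (m - δ1)) := by positivity
            exact mul_nonneg this (hwnn x)
        _ = (C1 * W) * (M : ℝ) ^ p1 * Real.exp (M * (m - δ1)) := by
            rw [integral_const_mul]; ring
    rw [hI]
    calc ‖(∫ x, gK g K M x) -
          ∫ x in bx xc (fun _ => ρ), (∏ i, g M i (x i)) * ∏ q, ∫ s in (-r)..r, f M q x s‖
        = ‖((∫ x, gK g K M x) - ∫ x in bx xc (fun _ => ρ), gK g K M x) +
          ((∫ x in bx xc (fun _ => ρ), gK g K M x) -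
          ∫ x in bx xc (fun _ => ρ), (∏ i, g M i (x i)) * ∏ q, ∫ s in (-r)..r, f M q x s)‖ := by
          congr 1; ring
      _ ≤ _ := (norm_add_le _ _).trans (add_le_add hfM hdiff)
  -- the error term tends to zero
  have hzero : Tendsto (fun M : ℕ =>
      (((M : ℝ) ^ ((Fintype.card (ι ⊕ ε) : ℝ) / 2) : ℝ) : ℂ) *
      ((∫ x, gK g K M x) - ∫ a in bx ac R, Φ M (cp a bc)) /
      ((((M : ℝ) ^ e : ℝ) : ℂ) * exp (M * V (cp ac bc)))) atTop (𝓝 0) := by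
    rw [tendsto_zero_iff_norm_tendsto_zero]
    have hs := (Asm_small ((Fintype.card (ι ⊕ ε) : ℝ) / 2) e m δ2 C2 p2 hδ2).add
      (Asm_small ((Fintype.card (ι ⊕ ε) : ℝ) / 2) e m δ1 (C1 * W) p1 hδ1)
    rw [add_zero] at hs
    refine squeeze_zero' (Eventually.of_forall fun M => norm_nonneg _) ?_ hs
    filter_upwards [herr] with M hM
    have hn1 : ‖(((M : ℝ) ^ ((Fintype.card (ι ⊕ ε) : ℝ) / 2) : ℝ) : ℂ)‖ =
        (M : ℝ) ^ ((Fintype.card (ι ⊕ ε) : ℝ) / 2) := by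
      rw [Complex.norm_real, Real.norm_of_nonneg (by positivity)]
    have hn2 : ‖(((M : ℝ) ^ e : ℝ) : ℂ)‖ = (M : ℝ) ^ e := by
      rw [Complex.norm_real, Real.norm_of_nonneg (by positivity)]
    have hn3 : ‖exp (M * V (cp ac bc))‖ = Real.exp (M * m) := by
      rw [Complex.norm_exp]
      congr 1
      rw [← hm]
      simp
    rw [norm_div, norm_mul, norm_mul, hn1, hn2, hn3, ← add_div, ← mul_add]
    gcongr
  have hsum := hlim.add hzero
  rw [add_zero] at hsum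
  refine hsum.congr fun M => ?_
  rw [← add_div, ← mul_add]
  congr 2
  ring

end Pool.Agent.S3.Asm
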